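import Pool.Agent.Helper17.RZ.St4

/-!
# Project RZ, D4c: tensor products of homotopy equivalences
-/

set_option autoImplicit false
set_option linter.unusedSectionVars false

open MvPolynomial
open scoped Kronecker

namespace Pool.Agent.Helper40.RZ

open Pool.Agent.Helper17.RZ

universe u

/-! ### matrix identities -/

section alg

variable {R : Type*} [CommRing R] {I J I' J' : Type*} [Fintype I] [DecidableEq I] [Fintype J]
  [DecidableEq J] [Fintype I'] [DecidableEq I'] [Fintype J'] [DecidableEq J']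

theorem alg_comm (dI pI : Matrix I I R) (dJ pJ : Matrix J J R) (dI' : Matrix I' I' R)
    (dJ' : Matrix J' J' R) (e : Matrix J I R) (e' : Matrix J' I' R) (h : e * dI = dJ * e)
    (hp : e * pI = pJ * e) (h' : e' * dI' = dJ' * e') :
    (e ⊗ₖ e') * (dI ⊗ₖ (1 : Matrix I' I' R) + pI ⊗ₖ dI') =
      (dJ ⊗ₖ (1 : Matrix J' J' R) + pJ ⊗ₖ dJ') * (e ⊗ₖ e') := by
  rw [Matrix.mul_add, Matrix.add_mul, ← Matrix.mul_kronecker_mul, ← Matrix.mul_kronecker_mul,
    ← Matrix.mul_kronecker_mul, ← Matrix.mul_kronecker_mul, Matrix.mul_one, Matrix.one_mul, h, hp,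
    h']

theorem alg_one (e : Matrix J I R) (r : Matrix I J R) (e' : Matrix J' I' R) (r' : Matrix I' J' R)
    (h : r * e = 1) (h' : r' * e' = 1) : (r ⊗ₖ r') * (e ⊗ₖ e') = 1 := by
  rw [← Matrix.mul_kronecker_mul, h, h', Matrix.one_kronecker_one]

theorem alg_hom (d p t : Matrix J J R) (e : Matrix J I R) (r : Matrix I J R)
    (d' t' : Matrix J' J' R) (e' : Matrix J' I' R) (r' : Matrix I' J' R)
    (dI' : Matrix I' I' R) (hpp : p * p = 1) (hdp : d * p = - (p * d)) (htp : t * p = - (p * t))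
    (h : 1 - e * r = d * t + t * d) (h' : 1 - e' * r' = d' * t' + t' * d')
    (he' : e' * dI' = d' * e') (hr' : r' * d' = dI' * r') :
    1 - (e ⊗ₖ e') * (r ⊗ₖ r') =
      (d ⊗ₖ (1 : Matrix J' J' R) + p ⊗ₖ d') * (p ⊗ₖ t' + t ⊗ₖ (e' * r')) +
        (p ⊗ₖ t' + t ⊗ₖ (e' * r')) * (d ⊗ₖ (1 : Matrix J' J' R) + p ⊗ₖ d') := by
  have hed : (e' * r') * d' = d' * (e' * r') := by
    rw [Matrix.mul_assoc, hr', ← Matrix.mul_assoc, he', Matrix.mul_assoc]
  have h1 : (d ⊗ₖ (1 : Matrix J' J' R) + p ⊗ₖ d') * (p ⊗ₖ t' + t ⊗ₖ (e' * r')) +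
        (p ⊗ₖ t' + t ⊗ₖ (e' * r')) * (d ⊗ₖ (1 : Matrix J' J' R) + p ⊗ₖ d') =
      (d * p + p * d) ⊗ₖ t' + (p * p) ⊗ₖ (d' * t' + t' * d') +
        (d * t + t * d) ⊗ₖ (e' * r') + (p * t + t * p) ⊗ₖ (d' * (e' * r')) := by
    simp only [Matrix.mul_add, Matrix.add_mul, ← Matrix.mul_kronecker_mul, Matrix.mul_one,
      Matrix.one_mul, hed, Matrix.add_kronecker, Matrix.kronecker_add]
    abel
  have h2 : ∀ (A : Matrix J J R) (B : Matrix J' J' R),
      1 - A ⊗ₖ B = (1 : Matrix J J R) ⊗ₖ (1 - B) + (1 - A) ⊗ₖ B := by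
    intro A B
    rw [← Matrix.one_kronecker_one (m := J) (n := J')]
    ext ⟨i, i'⟩ ⟨j, j'⟩
    simp only [Matrix.sub_apply, Matrix.add_apply, Matrix.kronecker_apply]
    ring
  rw [h1, hdp, htp, neg_add_cancel, add_neg_cancel, Matrix.zero_kronecker, Matrix.zero_kronecker,
    hpp, ← h, ← h', ← Matrix.mul_kronecker_mul, h2, zero_add, add_zero]

end alg

noncomputable section

variable {k : Type u} [Field k]

/-- the matrix of parities over the field of fractions -/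
def pmL (X : YObj k) : Matrix X.J X.J (LL k) := (pm X).map (algebraMap (SS k) (LL k))

theorem pmL_eq (X : YObj k) : pmL X = Matrix.diagonal fun j => algebraMap k (LL k) (sgn k (X.gr j)) := by
  unfold pmL pm
  rw [Matrix.diagonal_map (map_zero _)]
  congr 1

theorem pmL_pmL (X : YObj k) : pmL X * pmL X = 1 := by
  have h := congrArg (fun M : Matrix X.J X.J (SS k) => M.map (algebraMap (SS k) (LL k))) (pm_pm X)
  simp only [Matrix.map_mul] at h
  refine h.trans ?_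
  exact Matrix.map_one _ (map_zero _) (map_one _)

theorem dmL_pmL (X : YObj k) : dmL X * pmL X = - (pmL X * dmL X) := by
  have h := congrArg (fun M : Matrix X.J X.J (SS k) => M.map (algebraMap (SS k) (LL k))) (dm_pm X)
  simp only [Matrix.map_mul] at h
  refine h.trans ?_
  ext i j
  simp only [Matrix.map_apply, Matrix.neg_apply, map_neg]
  congr 1
  have h2 : ((pm X * X.dm).map (algebraMap (SS k) (LL k))) = pmL X * dmL X := by
    rw [Matrix.map_mul]
    rfl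
  exact congrFun (congrFun h2 i) j

theorem dmL_tens (X Y : YObj k) :
    dmL (X.tens Y) = dmL X ⊗ₖ (1 : Matrix Y.J Y.J (LL k)) + pmL X ⊗ₖ dmL Y := by
  ext ⟨i, i'⟩ ⟨j, j'⟩
  change algebraMap (SS k) (LL k) ((X.dm ⊗ₖ (1 : Matrix Y.J Y.J (SS k)) + pm X ⊗ₖ Y.dm) (i, i') (j, j')) =
    (dmL X ⊗ₖ (1 : Matrix Y.J Y.J (LL k)) + pmL X ⊗ₖ dmL Y) (i, i') (j, j')
  rw [Matrix.add_apply, Matrix.add_apply, Matrix.kronecker_apply, Matrix.kronecker_apply,
    Matrix.kronecker_apply, Matrix.kronecker_apply, map_add, map_mul, map_mul]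
  simp only [dmL, pmL, Matrix.map_apply]
  congr 2
  rw [Matrix.one_apply, Matrix.one_apply]
  split <;> simp

theorem mhom_pm {X Y : YObj k} {h : SS k} {M : Matrix Y.J X.J (LL k)} (hM : MHom X Y h 0 M) :
    M * pmL X = pmL Y * M := by
  rw [pmL_eq, pmL_eq]
  ext i j
  rw [Matrix.mul_diagonal, Matrix.diagonal_mul]
  by_cases h0 : M i j = 0
  · simp [h0]
  · have := (hM i j).2.2 h0
    rw [this, add_zero, mul_comm]

theorem mhom_pm' {X Y : YObj k} {h : SS k} {M : Matrix Y.J X.J (LL k)} (hM : MHom X Y h (-1) M) :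
    M * pmL X = - (pmL Y * M) := by
  rw [pmL_eq, pmL_eq]
  ext i j
  rw [Matrix.neg_apply, Matrix.mul_diagonal, Matrix.diagonal_mul]
  by_cases h0 : M i j = 0
  · simp [h0]
  · have h1 := (hM i j).2.2 h0
    have h2 : X.gr j = Y.gr i + 1 := by omega
    rw [h2, sgn_succ, map_neg]
    ring

theorem mhom_kron {X Y X' Y' : YObj k} {h : SS k} {n n' : ℤ} {M : Matrix Y.J X.J (LL k)}
    {M' : Matrix Y'.J X'.J (LL k)} (hM : MHom X Y h n M) (hM' : MHom X' Y' h n' M') :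
    MHom (X.tens X') (Y.tens Y') h (n + n') (M ⊗ₖ M') := by
  rintro ⟨i, i'⟩ ⟨j, j'⟩
  change (M i j * M' i' j') ∈ HD k (fun s => (Y.tw i + Y'.tw i') s - (X.tw j + X'.tw j') s) ∧
    M i j * M' i' j' ∈ Dn k h ∧ (M i j * M' i' j' ≠ 0 → Y.gr i + Y'.gr i' = X.gr j + X'.gr j' + (n + n'))
  refine ⟨?_, (Dn k h).mul_mem (hM i j).2.1 (hM' i' j').2.1, ?_⟩
  · have h1 := HD_mul (hM i j).1 (hM' i' j').1
    have h2 : (fun s => Y.tw i s - X.tw j s + (Y'.tw i' s - X'.tw j' s)) =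
        fun s => (Y.tw i + Y'.tw i') s - (X.tw j + X'.tw j') s := by
      funext s
      simp only [Pi.add_apply]
      ring
    rw [h2] at h1
    exact h1
  · intro h0
    have h1 := (hM i j).2.2 (left_ne_zero_of_mul h0)
    have h2 := (hM' i' j').2.2 (right_ne_zero_of_mul h0)
    rw [h1, h2]
    ring

theorem mhom_add {X Y : YObj k} {h : SS k} {n : ℤ} {M M' : Matrix Y.J X.J (LL k)}
    (hM : MHom X Y h n M) (hM' : MHom X Y h n M') : MHom X Y h n (M + M') := by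
  intro i j
  rw [Matrix.add_apply]
  refine ⟨Submodule.add_mem _ (hM i j).1 (hM' i j).1, (Dn k h).add_mem (hM i j).2.1 (hM' i j).2.1, ?_⟩
  intro h0
  by_cases h1 : M i j = 0
  · rw [h1, zero_add] at h0
    exact (hM' i j).2.2 h0
  · exact (hM i j).2.2 h1

theorem mhom_mul {X Y W : YObj k} {h : SS k} {n n' : ℤ} {M : Matrix W.J Y.J (LL k)}
    {M' : Matrix Y.J X.J (LL k)} (hM : MHom Y W h n M) (hM' : MHom X Y h n' M') :
    MHom X W h (n' + n) (M * M') := by
  intro i j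
  rw [Matrix.mul_apply]
  refine ⟨Submodule.sum_mem _ fun l _ => ?_, Subalgebra.sum_mem _ fun l _ =>
    (Dn k h).mul_mem (hM i l).2.1 (hM' l j).2.1, ?_⟩
  · have h1 := HD_mul (hM i l).1 (hM' l j).1
    have h2 : (fun s => W.tw i s - Y.tw l s + (Y.tw l s - X.tw j s)) =
        fun s => W.tw i s - X.tw j s := by
      funext s
      ring
    rw [h2] at h1
    exact h1
  · intro h0
    obtain ⟨l, _, hl⟩ := Finset.exists_ne_zero_of_sum_ne_zero h0
    have h1 := (hM i l).2.2 (left_ne_zero_of_mul hl)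
    have h2 := (hM' l j).2.2 (right_ne_zero_of_mul hl)
    rw [h1, h2]
    ring

theorem mhom_pmL (X : YObj k) (h : SS k) : MHom X X h 0 (pmL X) := by
  intro i j
  rw [pmL_eq]
  by_cases hij : i = j
  · subst hij
    rw [Matrix.diagonal_apply_eq]
    refine ⟨?_, (Dn k h).algebraMap_mem _, fun _ => by ring⟩
    have h1 : (fun s => X.tw i s - X.tw i s) = fun _ => (0 : ℤ) := by
      funext s
      ring
    rw [h1, Algebra.algebraMap_eq_smul_one]
    exact Submodule.smul_mem _ _ HD_one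
  · rw [Matrix.diagonal_apply_ne _ hij]
    exact ⟨Submodule.zero_mem _, (Dn k h).zero_mem, fun h0 => absurd rfl h0⟩

end

theorem tensHEq : TensHEq.{u} := by
  intro k _ X Y X' Y' ε ε' h hX hX'
  obtain ⟨h1, h2, r, t, h3, h4, h5, h6, h7⟩ := hX
  obtain ⟨h1', h2', r', t', h3', h4', h5', h6', h7'⟩ := hX'
  refine ⟨?_, ?_, r ⊗ₖ r', pmL Y ⊗ₖ t' + t ⊗ₖ (ε' * r'), ?_, ?_, ?_, ?_, ?_⟩
  · have := mhom_kron h1 h1'
    rwa [add_zero] at this
  · rw [dmL_tens, dmL_tens]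
    exact alg_comm _ _ _ _ _ _ _ _ h2 (mhom_pm h1) h2'
  · have := mhom_kron h3 h3'
    rwa [add_zero] at this
  · refine mhom_add ?_ ?_
    · have := mhom_kron (mhom_pmL Y h) h4'
      rwa [zero_add] at this
    · have h8 := mhom_mul h1' h3'
      rw [add_zero] at h8
      have := mhom_kron h4 h8
      rwa [add_zero] at this
  · rw [dmL_tens, dmL_tens]
    exact alg_comm _ _ _ _ _ _ _ _ h5 (mhom_pm h3) h5'
  · exact alg_one _ _ _ _ h6 h6'
  · rw [dmL_tens]
    exact alg_hom _ _ _ _ _ _ _ _ _ _ (pmL_pmL Y) (dmL_pmL Y) (mhom_pm' h4) h7 h7' h2' h5'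

end Pool.Agent.Helper40.RZ
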